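import Mathlib

/-!
Three directions: the node set is an affine image of the principal lattice.
-/

namespace Pool.Agent.Work.MP_d899bc_co.TC

private theorem par_const (a b c a' b' c' : ℝ) (h' : a' ≠ 0 ∨ b' ≠ 0)
    (h : ({q | a * q.1 + b * q.2 = c} : Set (ℝ × ℝ)) = {q | a' * q.1 + b' * q.2 = c'} ∨
      Disjoint ({q | a * q.1 + b * q.2 = c} : Set (ℝ × ℝ)) {q | a' * q.1 + b' * q.2 = c'})
    (q r : ℝ × ℝ) (hq : a' * q.1 + b' * q.2 = c') (hr : a' * r.1 + b' * r.2 = c') :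
    a * q.1 + b * q.2 = a * r.1 + b * r.2 := by
  rcases h with h | h
  · have h1 : q ∈ ({q | a * q.1 + b * q.2 = c} : Set (ℝ × ℝ)) := by rw [h]; exact hq
    have h2 : r ∈ ({q | a * q.1 + b * q.2 = c} : Set (ℝ × ℝ)) := by rw [h]; exact hr
    exact Eq.trans h1 (Eq.symm h2)
  · have hdet : a * b' - a' * b = 0 := by
      by_contra hne
      rw [Set.disjoint_left] at h
      refine h (a := ((c * b' - c' * b) / (a * b' - a' * b), (a * c' - a' * c) / (a * b' - a' * b)))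
        ?_ ?_
      · show a * ((c * b' - c' * b) / (a * b' - a' * b)) +
          b * ((a * c' - a' * c) / (a * b' - a' * b)) = c
        rw [mul_div_assoc', mul_div_assoc', ← add_div, div_eq_iff hne]
        ring
      · show a' * ((c * b' - c' * b) / (a * b' - a' * b)) +
          b' * ((a * c' - a' * c) / (a * b' - a' * b)) = c'
        rw [mul_div_assoc', mul_div_assoc', ← add_div, div_eq_iff hne]
        ring
    rcases h' with ha | hb
    · have : a' * (a * q.1 + b * q.2 - (a * r.1 + b * r.2)) = 0 := by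
        linear_combination a * hq - a * hr - (q.2 - r.2) * hdet
      have := (mul_eq_zero.mp this).resolve_left ha
      linarith
    · have : b' * (a * q.1 + b * q.2 - (a * r.1 + b * r.2)) = 0 := by
        linear_combination b * hq - b * hr + (q.1 - r.1) * hdet
      have := (mul_eq_zero.mp this).resolve_left hb
      linarith

private theorem eq_of_det (a b c a' b' c' : ℝ) (h : a ≠ 0 ∨ b ≠ 0) (h' : a' ≠ 0 ∨ b' ≠ 0)
    (hdet : a * b' - a' * b = 0) (q : ℝ × ℝ) (hq : a * q.1 + b * q.2 = c)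
    (hq' : a' * q.1 + b' * q.2 = c') :
    ({q | a * q.1 + b * q.2 = c} : Set (ℝ × ℝ)) = {q | a' * q.1 + b' * q.2 = c'} := by
  ext r
  constructor
  · intro hr
    have hr' : a * r.1 + b * r.2 = c := hr
    show a' * r.1 + b' * r.2 = c'
    rcases h with ha | hb
    · have : a * (a' * r.1 + b' * r.2 - c') = 0 := by
        linear_combination a' * hr' - a' * hq + a * hq' + (r.2 - q.2) * hdet
      have := (mul_eq_zero.mp this).resolve_left ha
      linarith
    · have : b * (a' * r.1 + b' * r.2 - c') = 0 := by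
        linear_combination b' * hr' - b' * hq + b * hq' - (r.1 - q.1) * hdet
      have := (mul_eq_zero.mp this).resolve_left hb
      linarith
  · intro hr
    have hr' : a' * r.1 + b' * r.2 = c' := hr
    show a * r.1 + b * r.2 = c
    rcases h' with ha | hb
    · have : a' * (a * r.1 + b * r.2 - c) = 0 := by
        linear_combination a * hr' - a * hq' + a' * hq - (r.2 - q.2) * hdet
      have := (mul_eq_zero.mp this).resolve_left ha
      linarith
    · have : b' * (a * r.1 + b * r.2 - c) = 0 := by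
        linear_combination b * hr' - b * hq' + b' * hq + (r.1 - q.1) * hdet
      have := (mul_eq_zero.mp this).resolve_left hb
      linarith

theorem directions (n : ℕ) (hn : 1 ≤ n) (X : Finset (ℝ × ℝ)) (𝓛 : Finset (Set (ℝ × ℝ)))
    (hlines : ∀ ℓ ∈ 𝓛, ∃ a b c : ℝ, (a ≠ 0 ∨ b ≠ 0) ∧ ℓ = {q | a * q.1 + b * q.2 = c})
    (κ : Set (ℝ × ℝ) → Fin 3)
    (hpar : ∀ ℓ ∈ 𝓛, ∀ ℓ' ∈ 𝓛, κ ℓ = κ ℓ' → ℓ = ℓ' ∨ Disjoint ℓ ℓ')
    (φ : ℝ × ℝ → Fin 3 → ℕ) (hφ : Set.BijOn φ X {v | v 0 + v 1 + v 2 = n})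
    (hl : ∀ c : Fin 3, ∀ i < n, ∃ ℓ ∈ 𝓛, κ ℓ = c ∧ ∀ q ∈ X, q ∈ ℓ ↔ φ q c = i) :
    ∃ u v w : ℝ × ℝ, v.1 * w.2 ≠ v.2 * w.1 ∧
      ∀ q, q ∈ X ↔ ∃ i j : ℕ, i + j ≤ n ∧ q = u + (i : ℝ) • v + (j : ℝ) • w := by
  classical
  -- the nodes
  have hP : ∀ i j : ℕ, ∃ q : ℝ × ℝ, i + j ≤ n → q ∈ X ∧ φ q = ![i, j, n - (i + j)] := by
    intro i j
    by_cases h : i + j ≤ n
    · have h1 : (![i, j, n - (i + j)] : Fin 3 → ℕ) ∈ {v : Fin 3 → ℕ | v 0 + v 1 + v 2 = n} := by
        show i + j + (n - (i + j)) = n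
        omega
      obtain ⟨q, hq, he⟩ := hφ.surjOn h1
      exact ⟨q, fun _ => ⟨hq, he⟩⟩
    · exact ⟨0, fun h' => absurd h' h⟩
  choose P hP using hP
  have hP0 : ∀ i j, i + j ≤ n → φ (P i j) 0 = i := by
    intro i j h; rw [(hP i j h).2]; rfl
  have hP1 : ∀ i j, i + j ≤ n → φ (P i j) 1 = j := by
    intro i j h; rw [(hP i j h).2]; rfl
  have hP2 : ∀ i j, i + j ≤ n → φ (P i j) 2 = n - (i + j) := by
    intro i j h; rw [(hP i j h).2]; rfl
  -- the first line of every class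
  have hfirst : ∀ c : Fin 3, ∃ a b e : ℝ, (a ≠ 0 ∨ b ≠ 0) ∧
      ({q | a * q.1 + b * q.2 = e} : Set (ℝ × ℝ)) ∈ 𝓛 ∧
      κ {q | a * q.1 + b * q.2 = e} = c ∧
      ∀ q ∈ X, a * q.1 + b * q.2 = e ↔ φ q c = 0 := by
    intro c
    obtain ⟨ℓ, hℓ, hκ, hq⟩ := hl c 0 (by omega)
    obtain ⟨a, b, e, hab, rfl⟩ := hlines ℓ hℓ
    exact ⟨a, b, e, hab, hℓ, hκ, hq⟩
  choose a b e hab hmem hκ hq0 using hfirst
  -- a class functional is constant on the lines of the class
  have hconst : ∀ c : Fin 3, ∀ q ∈ X, ∀ r ∈ X, φ q c = φ r c → φ q c < n →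
      a c * q.1 + b c * q.2 = a c * r.1 + b c * r.2 := by
    intro c q hq r hr he hlt
    obtain ⟨ℓ, hℓ, hκℓ, hqℓ⟩ := hl c (φ q c) hlt
    obtain ⟨a', b', e', hab', rfl⟩ := hlines ℓ hℓ
    exact par_const (a c) (b c) (e c) a' b' e' hab'
      (hpar _ (hmem c) _ hℓ ((hκ c).trans hκℓ.symm)) q r ((hqℓ q hq).mpr rfl)
      ((hqℓ r hr).mpr he.symm)
  -- different classes have different directions
  have hdet : ∀ c d : Fin 3, c ≠ d → (∃ q ∈ X, φ q c = 0 ∧ φ q d = 0) →
      a c * b d - a d * b c ≠ 0 := by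
    rintro c d hcd ⟨q, hq, h1, h2⟩ h0
    have h3 := eq_of_det (a c) (b c) (e c) (a d) (b d) (e d) (hab c) (hab d) h0 q
      ((hq0 c q hq).mpr h1) ((hq0 d q hq).mpr h2)
    apply hcd
    rw [← hκ c, ← hκ d, h3]
  have d01 : a 0 * b 1 - a 1 * b 0 ≠ 0 :=
    hdet 0 1 (by decide) ⟨P 0 0, (hP 0 0 (by omega)).1, hP0 0 0 (by omega), hP1 0 0 (by omega)⟩
  have d02 : a 0 * b 2 - a 2 * b 0 ≠ 0 := by
    refine hdet 0 2 (by decide) ⟨P 0 n, (hP 0 n (by omega)).1, hP0 0 n (by omega), ?_⟩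
    rw [hP2 0 n (by omega)]; omega
  have d12 : a 1 * b 2 - a 2 * b 1 ≠ 0 := by
    refine hdet 1 2 (by decide) ⟨P n 0, (hP n 0 (by omega)).1, hP1 n 0 (by omega), ?_⟩
    rw [hP2 n 0 (by omega)]; omega
  -- values of the functionals
  set L : Fin 3 → ℝ × ℝ → ℝ := fun c q => a c * q.1 + b c * q.2 with hL
  have hL0 : ∀ i j, i + j ≤ n → L 0 (P i j) = L 0 (P i 0) := by
    intro i j h
    by_cases hi : i < n
    · exact hconst 0 _ (hP i j h).1 _ (hP i 0 (by omega)).1
        (by rw [hP0 i j h, hP0 i 0 (by omega)]) (by rw [hP0 i j h]; exact hi)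
    · have : j = 0 := by omega
      rw [this]
  have hL1 : ∀ i j, i + j ≤ n → L 1 (P i j) = L 1 (P 0 j) := by
    intro i j h
    by_cases hi : j < n
    · exact hconst 1 _ (hP i j h).1 _ (hP 0 j (by omega)).1
        (by rw [hP1 i j h, hP1 0 j (by omega)]) (by rw [hP1 i j h]; exact hi)
    · have : i = 0 := by omega
      rw [this]
  have hL2 : ∀ i j, i + j ≤ n → L 2 (P i j) = L 2 (P 0 (i + j)) := by
    intro i j h
    by_cases hi : 0 < i + j
    · exact hconst 2 _ (hP i j h).1 _ (hP 0 (i + j) (by omega)).1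
        (by rw [hP2 i j h, hP2 0 (i + j) (by omega)]; omega) (by rw [hP2 i j h]; omega)
    · have h1 : i = 0 := by omega
      have h2 : j = 0 := by omega
      rw [h1, h2]
  have hrel : ∀ q, (a 0 * b 1 - a 1 * b 0) * L 2 q =
      -(a 1 * b 2 - a 2 * b 1) * L 0 q + (a 0 * b 2 - a 2 * b 0) * L 1 q := by
    intro q
    simp only [hL]
    ring
  have hrel' : ∀ i j, i + j ≤ n → (a 0 * b 1 - a 1 * b 0) * L 2 (P 0 (i + j)) =
      -(a 1 * b 2 - a 2 * b 1) * L 0 (P i 0) + (a 0 * b 2 - a 2 * b 0) * L 1 (P 0 j) := by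
    intro i j h
    rw [← hL2 i j h, ← hL0 i j h, ← hL1 i j h]
    exact hrel _
  have hstep : ∀ i j, i + j + 1 ≤ n →
      -(a 1 * b 2 - a 2 * b 1) * (L 0 (P (i + 1) 0) - L 0 (P i 0)) =
        (a 0 * b 2 - a 2 * b 0) * (L 1 (P 0 (j + 1)) - L 1 (P 0 j)) := by
    intro i j h
    have h1 := hrel' (i + 1) j (by omega)
    have h2 := hrel' i (j + 1) (by omega)
    rw [show i + 1 + j = i + (j + 1) by omega] at h1
    linear_combination h2 - h1
  have hα : ∀ i, i ≤ n → L 0 (P i 0) = L 0 (P 0 0) + i * (L 0 (P 1 0) - L 0 (P 0 0)) := by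
    intro i
    induction i with
    | zero => intro _; simp
    | succ i ih =>
      intro h
      have h1 := hstep i 0 (by omega)
      have h2 := hstep 0 0 (by omega)
      have h3 : (a 1 * b 2 - a 2 * b 1) * ((L 0 (P (i + 1) 0) - L 0 (P i 0)) -
          (L 0 (P 1 0) - L 0 (P 0 0))) = 0 := by
        simp only [Nat.zero_add] at h1 h2
        linear_combination h2 - h1
      have h4 := (mul_eq_zero.mp h3).resolve_left d12
      have h5 := ih (by omega)
      push_cast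
      linear_combination h4 + h5
  have hβ : ∀ j, j ≤ n → L 1 (P 0 j) = L 1 (P 0 0) + j * (L 1 (P 0 1) - L 1 (P 0 0)) := by
    intro j
    induction j with
    | zero => intro _; simp
    | succ j ih =>
      intro h
      have h1 := hstep 0 j (by omega)
      have h2 := hstep 0 0 (by omega)
      have h3 : (a 0 * b 2 - a 2 * b 0) * ((L 1 (P 0 (j + 1)) - L 1 (P 0 j)) -
          (L 1 (P 0 1) - L 1 (P 0 0))) = 0 := by
        simp only [Nat.zero_add] at h1 h2
        linear_combination h2 - h1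
      have h4 := (mul_eq_zero.mp h3).resolve_left d02
      have h5 := ih (by omega)
      push_cast
      linear_combination h4 + h5
  -- two functionals determine a point
  have hpt : ∀ q r : ℝ × ℝ, L 0 q = L 0 r → L 1 q = L 1 r → q = r := by
    intro q r h0 h1
    simp only [hL] at h0 h1
    have e1 : (a 0 * b 1 - a 1 * b 0) * (q.1 - r.1) = 0 := by
      linear_combination b 1 * h0 - b 0 * h1
    have e2 : (a 0 * b 1 - a 1 * b 0) * (q.2 - r.2) = 0 := by
      linear_combination a 0 * h1 - a 1 * h0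
    have f1 := (mul_eq_zero.mp e1).resolve_left d01
    have f2 := (mul_eq_zero.mp e2).resolve_left d01
    exact Prod.ext (by linarith) (by linarith)
  have hLlin : ∀ c (u v w : ℝ × ℝ) (s r : ℝ),
      L c (u + s • v + r • w) = L c u + s * L c v + r * L c w := by
    intro c u v w s r
    simp only [hL, Prod.fst_add, Prod.snd_add, Prod.smul_fst, Prod.smul_snd, smul_eq_mul]
    ring
  have hLsub : ∀ c (u v : ℝ × ℝ), L c (u - v) = L c u - L c v := by
    intro c u v
    simp only [hL, Prod.fst_sub, Prod.snd_sub]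
    ring
  have hform : ∀ i j, i + j ≤ n →
      P i j = P 0 0 + (i : ℝ) • (P 1 0 - P 0 0) + (j : ℝ) • (P 0 1 - P 0 0) := by
    intro i j h
    apply hpt
    · rw [hLlin, hLsub, hLsub, hL0 i j h, hα i (by omega), hL0 0 1 (by omega)]
      ring
    · rw [hLlin, hLsub, hLsub, hL1 i j h, hβ j (by omega), hL1 1 0 (by omega)]
      ring
  refine ⟨P 0 0, P 1 0 - P 0 0, P 0 1 - P 0 0, ?_, ?_⟩
  · intro hcon
    have g1 : L 0 (P 1 0) - L 0 (P 0 0) ≠ 0 := by
      intro h
      have h1 : P 1 0 = P 0 0 :=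
        hpt _ _ (by linarith) (by rw [hL1 1 0 (by omega)])
      have h2 := hP0 1 0 (by omega)
      rw [h1, hP0 0 0 (by omega)] at h2
      omega
    have g2 : L 1 (P 0 1) - L 1 (P 0 0) ≠ 0 := by
      intro h
      have h1 : P 0 1 = P 0 0 :=
        hpt _ _ (by rw [hL0 0 1 (by omega)]) (by linarith)
      have h2 := hP1 0 1 (by omega)
      rw [h1, hP1 0 0 (by omega)] at h2
      omega
    have g3 : (L 0 (P 1 0) - L 0 (P 0 0)) * (L 1 (P 0 1) - L 1 (P 0 0)) = 0 := by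
      have k1 : L 0 (P 0 1) - L 0 (P 0 0) = 0 := by rw [hL0 0 1 (by omega)]; ring
      have k2 : L 1 (P 1 0) - L 1 (P 0 0) = 0 := by rw [hL1 1 0 (by omega)]; ring
      simp only [hL] at k1 k2 ⊢
      simp only [Prod.fst_sub, Prod.snd_sub] at hcon
      have key : (a 0 * (P 1 0).1 + b 0 * (P 1 0).2 - (a 0 * (P 0 0).1 + b 0 * (P 0 0).2)) *
          (a 1 * (P 0 1).1 + b 1 * (P 0 1).2 - (a 1 * (P 0 0).1 + b 1 * (P 0 0).2)) -
          (a 0 * (P 0 1).1 + b 0 * (P 0 1).2 - (a 0 * (P 0 0).1 + b 0 * (P 0 0).2)) *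
          (a 1 * (P 1 0).1 + b 1 * (P 1 0).2 - (a 1 * (P 0 0).1 + b 1 * (P 0 0).2)) =
          (a 0 * b 1 - a 1 * b 0) * (((P 1 0).1 - (P 0 0).1) * ((P 0 1).2 - (P 0 0).2) -
            ((P 1 0).2 - (P 0 0).2) * ((P 0 1).1 - (P 0 0).1)) := by ring
      rw [k1, k2, hcon] at key
      linarith
    exact (mul_ne_zero g1 g2) g3
  · intro q
    constructor
    · intro hq
      have hs : φ q 0 + φ q 1 + φ q 2 = n := hφ.mapsTo hq
      refine ⟨φ q 0, φ q 1, by omega, ?_⟩
      rw [← hform _ _ (by omega)]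
      have h1 := hP (φ q 0) (φ q 1) (by omega)
      refine hφ.injOn hq h1.1 ?_
      rw [h1.2]
      ext c
      fin_cases c
      · rfl
      · rfl
      · show φ q 2 = n - (φ q 0 + φ q 1)
        omega
    · rintro ⟨i, j, h, rfl⟩
      rw [← hform i j h]
      exact (hP i j h).1

end Pool.Agent.Work.MP_d899bc_co.TC
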