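import Pool.Agent.Work.MP_d899bc_co.TC.Sum

/-!
Three classes: the nodes correspond to the triples with sum `n`.
-/

open Finset MvPolynomial

namespace Pool.Agent.Work.MP_d899bc_co.TC

open Pool.Agent.Work.MP_d899bc_co

variable {n : ℕ} {X : Finset (ℝ × ℝ)} {𝓛 : Finset (Set (ℝ × ℝ))}
  {t : Set (ℝ × ℝ) → ℝ × ℝ × ℝ} {U : ℝ × ℝ → Finset (Set (ℝ × ℝ))}

theorem bij (D : Data n X 𝓛 t U) (hn : 1 ≤ n) (hcard : 2 * X.card = (n + 1) * (n + 2))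
    (hline : ∀ ℓ ∈ 𝓛, ∀ ℓ' ∈ 𝓛, ∀ A C : ℝ × ℝ, A ≠ C → A ∈ ℓ → C ∈ ℓ → A ∈ ℓ' → C ∈ ℓ' → ℓ = ℓ')
    (hproper : ∀ ℓ ∈ 𝓛, ∃ q : ℝ × ℝ, q ∉ ℓ)
    (S : Set (ℝ × ℝ) → Finset (ℝ × ℝ)) (hS : ∀ ℓ C, C ∈ S ℓ ↔ C ∈ X ∧ C ∈ ℓ)
    (κ : Set (ℝ × ℝ) → Fin 3)
    (hκ : ∀ ℓ ∈ 𝓛, ∀ ℓ' ∈ 𝓛, κ ℓ = κ ℓ' → ∀ A ∈ X, A ∈ ℓ → A ∈ ℓ' → ℓ = ℓ') :
    ∃ φ : ℝ × ℝ → Fin 3 → ℕ, Set.BijOn φ X {v | v 0 + v 1 + v 2 = n} ∧
      ∀ c : Fin 3, ∀ i < n, ∃ ℓ ∈ 𝓛, κ ℓ = c ∧ ∀ q ∈ X, q ∈ ℓ ↔ φ q c = i := by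
  classical
  have hmax : ∀ ℓ ∈ 𝓛, (S ℓ).card ≤ n + 1 := fun ℓ hℓ => line_le D hline S hS ℓ hℓ
  obtain ⟨h1, h2⟩ := tight D hcard hline hproper S hS κ hκ
  set s : ℝ × ℝ → Fin 3 → ℕ := fun A c =>
    ∑ ℓ ∈ 𝓛 with κ ℓ = c, (if A ∈ S ℓ then (S ℓ).card - 1 else 0) with hs
  have hs1 : ∀ A ∈ X, ∀ ℓ ∈ 𝓛, A ∈ ℓ → s A (κ ℓ) = (S ℓ).card - 1 := by
    intro A hA ℓ hℓ hAℓ
    simp only [hs]
    rw [Finset.sum_eq_single ℓ]
    · rw [if_pos ((hS ℓ A).mpr ⟨hA, hAℓ⟩)]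
    · intro ℓ' hℓ' hne
      rw [Finset.mem_filter] at hℓ'
      rw [if_neg]
      intro hA'
      exact hne (hκ ℓ' hℓ'.1 ℓ hℓ hℓ'.2 A hA ((hS ℓ' A).mp hA').2 hAℓ)
    · intro h
      exact absurd (show ℓ ∈ 𝓛.filter (fun ℓ' => κ ℓ' = κ ℓ) from
        Finset.mem_filter.mpr ⟨hℓ, rfl⟩) h
  have hs0 : ∀ A ∈ X, ∀ c, (∀ ℓ ∈ 𝓛, κ ℓ = c → A ∉ ℓ) → s A c = 0 := by
    intro A hA c hc
    simp only [hs]
    refine Finset.sum_eq_zero fun ℓ hℓ => ?_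
    rw [Finset.mem_filter] at hℓ
    rw [if_neg]
    intro hA'
    exact hc ℓ hℓ.1 hℓ.2 ((hS ℓ A).mp hA').2
  have hsle : ∀ A ∈ X, ∀ c, s A c ≤ n := by
    intro A hA c
    by_cases hc : ∀ ℓ ∈ 𝓛, κ ℓ = c → A ∉ ℓ
    · rw [hs0 A hA c hc]; exact Nat.zero_le _
    · push Not at hc
      obtain ⟨ℓ, hℓ, rfl, hAℓ⟩ := hc
      rw [hs1 A hA ℓ hℓ hAℓ]
      have := hmax ℓ hℓ
      omega
  have hssum : ∀ A ∈ X, s A 0 + s A 1 + s A 2 = 2 * n := by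
    intro A hA
    have := h2 A hA
    rw [Fin.sum_univ_three] at this
    exact this
  -- a positive value comes from a line
  have hspos : ∀ A ∈ X, ∀ c, 0 < s A c → ∃ ℓ ∈ 𝓛, κ ℓ = c ∧ A ∈ ℓ ∧ (S ℓ).card = s A c + 1 := by
    intro A hA c hpos
    by_cases hc : ∀ ℓ ∈ 𝓛, κ ℓ = c → A ∉ ℓ
    · rw [hs0 A hA c hc] at hpos
      exact absurd hpos (lt_irrefl _)
    · push Not at hc
      obtain ⟨ℓ, hℓ, rfl, hAℓ⟩ := hc
      refine ⟨ℓ, hℓ, rfl, hAℓ, ?_⟩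
      rw [hs1 A hA ℓ hℓ hAℓ] at hpos ⊢
      omega
  -- two nodes with the same positive value are on one line of the class
  have hsame : ∀ A ∈ X, ∀ B ∈ X, ∀ c, 0 < s A c → s A c = s B c →
      ∃ ℓ ∈ 𝓛, κ ℓ = c ∧ A ∈ ℓ ∧ B ∈ ℓ := by
    intro A hA B hB c hpos he
    obtain ⟨ℓ, hℓ, hκℓ, hAℓ, hm⟩ := hspos A hA c hpos
    obtain ⟨ℓ', hℓ', hκℓ', hBℓ', hm'⟩ := hspos B hB c (he ▸ hpos)
    have hmx := hmax ℓ hℓ
    obtain ⟨ℓ₀, -, hu⟩ := h1 c (s A c + 1) (by omega) (by omega)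
    have e1 := hu ℓ ⟨⟨hℓ, hκℓ⟩, hm⟩
    have e2 := hu ℓ' ⟨⟨hℓ', hκℓ'⟩, by rw [hm', he]⟩
    refine ⟨ℓ, hℓ, hκℓ, hAℓ, ?_⟩
    rw [e1, ← e2]
    exact hBℓ'
  set φ : ℝ × ℝ → Fin 3 → ℕ := fun A c => n - s A c with hφ
  have hφsum : ∀ A ∈ X, φ A 0 + φ A 1 + φ A 2 = n := by
    intro A hA
    have e0 := hsle A hA 0
    have e1 := hsle A hA 1
    have e2 := hsle A hA 2
    have e3 := hssum A hA
    simp only [hφ]
    omega
  have hinj : ∀ A ∈ X, ∀ B ∈ X, φ A = φ B → A = B := by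
    intro A hA B hB he
    have hsc : ∀ c, s A c = s B c := by
      intro c
      have h3 := congrFun he c
      have e0 := hsle A hA c
      have e1 := hsle B hB c
      simp only [hφ] at h3
      omega
    by_contra hne
    have hkey : ∀ c d, c ≠ d → 0 < s A c → 0 < s A d → False := by
      intro c d hcd hc hd
      obtain ⟨ℓ, hℓ, hκℓ, hAℓ, hBℓ⟩ := hsame A hA B hB c hc (hsc c)
      obtain ⟨ℓ', hℓ', hκℓ', hAℓ', hBℓ'⟩ := hsame A hA B hB d hd (hsc d)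
      have := hline ℓ hℓ ℓ' hℓ' A B hne hAℓ hBℓ hAℓ' hBℓ'
      apply hcd
      rw [← hκℓ, ← hκℓ', this]
    have e0 := hsle A hA 0
    have e1 := hsle A hA 1
    have e2 := hsle A hA 2
    have e3 := hssum A hA
    rcases Nat.eq_zero_or_pos (s A 0) with f0 | f0
    · exact hkey 1 2 (by decide) (by omega) (by omega)
    rcases Nat.eq_zero_or_pos (s A 1) with f1 | f1
    · exact hkey 0 2 (by decide) (by omega) (by omega)
    exact hkey 0 1 (by decide) f0 f1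
  refine ⟨φ, ⟨fun A hA => hφsum A hA, fun A hA B hB he => hinj A hA B hB he, ?_⟩, ?_⟩
  · -- surjective by counting
    set T : Finset (Fin 3 → ℕ) := ((Finset.range (n + 1)).sigma fun d => Finset.range (d + 1)).image
      (fun p => ![p.2, p.1 - p.2, n - p.1]) with hT
    have hTc : 2 * T.card ≤ (n + 1) * (n + 2) := by
      rw [← card_tri n]
      exact Nat.mul_le_mul_left 2 Finset.card_image_le
    have hmemT : ∀ v : Fin 3 → ℕ, v 0 + v 1 + v 2 = n → v ∈ T := by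
      intro v hv
      rw [hT, Finset.mem_image]
      refine ⟨⟨v 0 + v 1, v 0⟩, ?_, ?_⟩
      · rw [Finset.mem_sigma, Finset.mem_range, Finset.mem_range]
        constructor
        · show v 0 + v 1 < n + 1
          omega
        · show v 0 < v 0 + v 1 + 1
          omega
      · ext c
        fin_cases c
        · rfl
        · show v 0 + v 1 - v 0 = v 1
          omega
        · show n - (v 0 + v 1) = v 2
          omega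
    have hsub : X.image φ ⊆ T := by
      intro v hv
      rw [Finset.mem_image] at hv
      obtain ⟨A, hA, rfl⟩ := hv
      exact hmemT _ (hφsum A hA)
    have hci : (X.image φ).card = X.card :=
      Finset.card_image_of_injOn fun A hA B hB he => hinj A hA B hB he
    have heq : X.image φ = T := Finset.eq_of_subset_of_card_le hsub (by omega)
    intro v hv
    have h3 := hmemT v hv
    rw [← heq, Finset.mem_image] at h3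
    obtain ⟨A, hA, he⟩ := h3
    exact ⟨A, hA, he⟩
  · intro c i hi
    obtain ⟨ℓ, ⟨⟨hℓ, hκℓ⟩, hm⟩, hu⟩ := h1 c (n + 1 - i) (by omega) (by omega)
    refine ⟨ℓ, hℓ, hκℓ, fun q hq => ⟨fun hqℓ => ?_, fun he => ?_⟩⟩
    · have h3 := hs1 q hq ℓ hℓ hqℓ
      rw [hκℓ, hm] at h3
      simp only [hφ]
      omega
    · have e0 := hsle q hq c
      simp only [hφ] at he
      obtain ⟨ℓ', hℓ', hκℓ', hqℓ', hm'⟩ := hspos q hq c (by omega)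
      have e1 := hu ℓ' ⟨⟨hℓ', hκℓ'⟩, by omega⟩
      rw [← e1]
      exact hqℓ'

end Pool.Agent.Work.MP_d899bc_co.TC
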