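import Pool.Agent.Work.MP_d899bc_co.Joined

/-!
Dimension count: `f` lines leave at least `C(n-f+2,2)` nodes of a degree `n` set.
-/

open Finset MvPolynomial

namespace Pool.Agent.Work.MP_d899bc_co.TC

open Pool.Agent.Work.MP_d899bc_co

theorem card_tri (m : ℕ) :
    2 * ((Finset.range (m + 1)).sigma fun d => Finset.range (d + 1)).card = (m + 1) * (m + 2) := by
  rw [Finset.card_sigma]
  simp only [Finset.card_range]
  induction m with
  | zero => simp
  | succ m ih =>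
    rw [Finset.sum_range_succ, mul_add, ih]
    ring

private noncomputable def ex (s : (_ : ℕ) × ℕ) : Fin 2 →₀ ℕ :=
  Finsupp.single 0 s.2 + Finsupp.single 1 (s.1 - s.2)

theorem exists_poly (m : ℕ) (R : Finset (ℝ × ℝ)) (h : 2 * R.card < (m + 1) * (m + 2)) :
    ∃ p : MvPolynomial (Fin 2) ℝ, p ≠ 0 ∧ p.totalDegree ≤ m ∧
      ∀ x ∈ R, eval ![x.1, x.2] p = 0 := by
  classical
  set J := (Finset.range (m + 1)).sigma fun d => Finset.range (d + 1) with hJ
  have hJc : 2 * J.card = (m + 1) * (m + 2) := card_tri m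
  have hmemJ : ∀ s ∈ J, s.1 ≤ m ∧ s.2 ≤ s.1 := by
    intro s hs
    rw [hJ, Finset.mem_sigma, Finset.mem_range, Finset.mem_range] at hs
    omega
  have hinj : Function.Injective (fun s : J => ex s.1) := by
    rintro ⟨⟨a, b⟩, hs⟩ ⟨⟨c, d⟩, hs'⟩ he
    have h1 := hmemJ _ hs
    have h2 := hmemJ _ hs'
    have e0 := DFunLike.congr_fun he 0
    have e1 := DFunLike.congr_fun he 1
    simp [ex] at e0 e1
    simp only at h1 h2
    have : a = c := by omega
    subst this
    subst e0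
    rfl
  have hli : LinearIndependent ℝ (fun s : J => (monomial (ex s.1) (1 : ℝ))) := by
    have h := (basisMonomials (Fin 2) ℝ).linearIndependent.comp _ hinj
    rw [coe_basisMonomials] at h
    exact h
  have hPinj := linearIndependent_iff_injective_fintypeLinearCombination.mp hli
  set P : (J → ℝ) →ₗ[ℝ] MvPolynomial (Fin 2) ℝ :=
    Fintype.linearCombination ℝ (fun s : J => (monomial (ex s.1) (1 : ℝ))) with hP
  set Ev : MvPolynomial (Fin 2) ℝ →ₗ[ℝ] (R → ℝ) :=
    LinearMap.pi fun x => (aeval (R := ℝ) ![x.1.1, x.1.2]).toLinearMap with hEv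
  have hker : LinearMap.ker (Ev ∘ₗ P) ≠ ⊥ := by
    apply LinearMap.ker_ne_bot_of_finrank_lt
    rw [Module.finrank_fintype_fun_eq_card, Module.finrank_fintype_fun_eq_card,
      Fintype.card_coe, Fintype.card_coe]
    omega
  obtain ⟨c, hc, hc0⟩ := (Submodule.ne_bot_iff _).mp hker
  refine ⟨P c, ?_, ?_, ?_⟩
  · intro h0
    apply hc0
    apply hPinj
    rw [h0, map_zero]
  · rw [hP, Fintype.linearCombination_apply]
    refine (totalDegree_finsetSum _ _).trans (Finset.sup_le fun s _ => ?_)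
    refine (totalDegree_smul_le _ _).trans ?_
    refine (totalDegree_monomial_le _ _).trans ?_
    have := hmemJ s.1 s.2
    have h2 : (ex s.1).sum (fun _ e => e) = s.1.1 := by
      rw [ex, Finsupp.sum_add_index' (by intros; rfl) (by intros; rfl)]
      rw [Finsupp.sum_single_index rfl, Finsupp.sum_single_index rfl]
      omega
    change (ex s.1).sum (fun _ e => e) ≤ m
    rw [h2]
    exact this.1
  · intro x hx
    have h1 := (LinearMap.mem_ker.mp hc)
    have h2 := congrFun h1 ⟨x, hx⟩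
    simp only [hEv, LinearMap.comp_apply, LinearMap.pi_apply, AlgHom.toLinearMap_apply,
      Pi.zero_apply] at h2
    rw [← h2]
    rw [← coe_aeval_eq_eval]
    rfl

variable {n : ℕ} {X : Finset (ℝ × ℝ)} {𝓛 : Finset (Set (ℝ × ℝ))}
  {t : Set (ℝ × ℝ) → ℝ × ℝ × ℝ} {U : ℝ × ℝ → Finset (Set (ℝ × ℝ))}

/-- at most `n + 1` lines leave many nodes -/
theorem rest_ge (D : Data n X 𝓛 t U)
    (hproper : ∀ ℓ ∈ 𝓛, ∃ q : ℝ × ℝ, q ∉ ℓ)
    (G : Finset (Set (ℝ × ℝ))) (hG : G ⊆ 𝓛) (hGn : G.card ≤ n + 1)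
    (R : Finset (ℝ × ℝ)) (hR : ∀ x ∈ X, (∀ ℓ ∈ G, x ∉ ℓ) → x ∈ R) :
    (n + 1 - G.card) * (n + 2 - G.card) ≤ 2 * R.card := by
  classical
  by_cases hf : G.card = n + 1
  · rw [hf]; simp
  obtain ⟨m, hm⟩ : ∃ m, n = m + G.card := ⟨n - G.card, by omega⟩
  by_contra hcon
  push Not at hcon
  have e1 : n + 1 - G.card = m + 1 := by omega
  have e2 : n + 2 - G.card = m + 2 := by omega
  rw [e1, e2] at hcon
  obtain ⟨q, hq0, hqd, hqR⟩ := exists_poly m R hcon
  have hp : q * ∏ ℓ ∈ G, lin (t ℓ) = 0 := by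
    apply D.corr
    · refine (totalDegree_mul _ _).trans ?_
      have h1 := prod_degree G (fun ℓ => lin (t ℓ)) fun ℓ _ => lin_degree _
      omega
    · intro x hx
      rw [map_mul, map_prod]
      by_cases hxG : ∀ ℓ ∈ G, x ∉ ℓ
      · rw [hqR x (hR x hx hxG), zero_mul]
      · push Not at hxG
        obtain ⟨ℓ, hℓ, hxℓ⟩ := hxG
        rw [Finset.prod_eq_zero hℓ ((D.mem ℓ (hG hℓ) x).mp hxℓ), mul_zero]
  rcases mul_eq_zero.mp hp with h | h
  · exact hq0 h
  · obtain ⟨ℓ, hℓ, h0⟩ := Finset.prod_eq_zero_iff.mp h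
    obtain ⟨y, hy⟩ := hproper ℓ (hG hℓ)
    apply hy
    rw [D.mem ℓ (hG hℓ) y, h0, map_zero]

end Pool.Agent.Work.MP_d899bc_co.TC
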