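import Pool.Agent.Work.MP_d899bc_co.TC.Dim

/-!
Pairwise node-disjoint lines: `3 ∑ k (k - 1) ≤ n (n + 1) (n + 2)`, and equality only for the
sizes `n + 1, n, …, 2`.
-/

open Finset MvPolynomial

namespace Pool.Agent.Work.MP_d899bc_co.TC

open Pool.Agent.Work.MP_d899bc_co

variable {n : ℕ} {X : Finset (ℝ × ℝ)} {𝓛 : Finset (Set (ℝ × ℝ))}
  {t : Set (ℝ × ℝ) → ℝ × ℝ × ℝ} {U : ℝ × ℝ → Finset (Set (ℝ × ℝ))}

theorem two_sum_sub (n m : ℕ) (h : m ≤ n + 1) :
    2 * ∑ j ∈ Finset.range n, (m - (j + 1)) = m * (m - 1) := by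
  induction n with
  | zero =>
    have : m = 0 ∨ m = 1 := by omega
    rcases this with rfl | rfl <;> simp
  | succ n ih =>
    by_cases h' : m ≤ n + 1
    · rw [Finset.sum_range_succ, mul_add, ih h']
      have : m - (n + 1) = 0 := by omega
      rw [this]
      ring
    · have hm : m = n + 2 := by omega
      subst hm
      clear ih h h'
      have h1 : ∀ k : ℕ, 2 * ∑ j ∈ Finset.range k, (k + 1 - (j + 1)) = (k + 1) * k := by
        intro k
        have h2 : ∑ j ∈ Finset.range k, (k + 1 - (j + 1)) = ∑ j ∈ Finset.range k, (j + 1) := by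
          rw [← Finset.sum_range_reflect]
          refine Finset.sum_congr rfl fun j hj => ?_
          rw [Finset.mem_range] at hj
          omega
        rw [h2]
        clear h2
        induction k with
        | zero => simp
        | succ k ih =>
          rw [Finset.sum_range_succ, mul_add, ih]
          ring
      have := h1 (n + 1)
      rw [show n + 2 - 1 = n + 1 by omega]
      exact this

theorem three_sum_tri (n : ℕ) :
    3 * ∑ j ∈ Finset.range n, (n - j) * (n + 1 - j) = n * (n + 1) * (n + 2) := by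
  have h2 : ∑ j ∈ Finset.range n, (n - j) * (n + 1 - j) =
      ∑ j ∈ Finset.range n, (j + 1) * (j + 2) := by
    rw [← Finset.sum_range_reflect]
    refine Finset.sum_congr rfl fun j hj => ?_
    rw [Finset.mem_range] at hj
    congr 1 <;> omega
  rw [h2]
  clear h2
  induction n with
  | zero => simp
  | succ k ih =>
    rw [Finset.sum_range_succ, mul_add, ih]
    ring

private theorem arith1 (a j g u : ℕ) (hj : j ≤ a) (hg : g ≤ a)
    (h : (a - g) * (a + 1 - g) + 2 * u ≤ a * (a + 1)) :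
    2 * u ≤ (a - j) * (a + 1 - j) + 2 * (g * j) := by
  obtain ⟨b, rfl⟩ := Nat.exists_eq_add_of_le hj
  obtain ⟨c, hc⟩ := Nat.exists_eq_add_of_le hg
  rw [show j + b - j = b by omega, show j + b + 1 - j = b + 1 by omega]
  rw [show j + b - g = c by omega, show j + b + 1 - g = c + 1 by omega] at h
  have h1 : (j + b) = g + c := hc
  zify at h h1 ⊢
  have h2 : (0 : ℤ) ≤ ((b : ℤ) - g) * ((b : ℤ) - g + 1) := by
    rcases le_or_gt 0 ((b : ℤ) - g) with h3 | h3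
    · positivity
    · nlinarith
  have h3 : (c : ℤ) = j + b - g := by linarith
  rw [h3] at h
  nlinarith

private theorem arith2 (a j g u : ℕ) (hj : j ≤ a) (hg : a < g)
    (h : 2 * u ≤ a * (a + 1)) :
    2 * u ≤ (a - j) * (a + 1 - j) + 2 * (g * j) := by
  obtain ⟨b, rfl⟩ := Nat.exists_eq_add_of_le hj
  rw [show j + b - j = b by omega, show j + b + 1 - j = b + 1 by omega]
  have h1 : (j + b + 1) * j ≤ g * j := Nat.mul_le_mul_right j hg
  nlinarith

/-- the bound at a threshold -/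
theorem thr_le (D : Data n X 𝓛 t U) (hcard : 2 * X.card = (n + 1) * (n + 2))
    (hproper : ∀ ℓ ∈ 𝓛, ∃ q : ℝ × ℝ, q ∉ ℓ)
    (S : Set (ℝ × ℝ) → Finset (ℝ × ℝ)) (hS : ∀ ℓ C, C ∈ S ℓ ↔ C ∈ X ∧ C ∈ ℓ)
    (F : Finset (Set (ℝ × ℝ))) (hF : F ⊆ 𝓛)
    (hdis : ∀ ℓ ∈ F, ∀ ℓ' ∈ F, ∀ A ∈ X, A ∈ ℓ → A ∈ ℓ' → ℓ = ℓ') (j : ℕ) (hj : j ≤ n + 1) :
    2 * ∑ ℓ ∈ F, ((S ℓ).card - j) ≤ (n + 1 - j) * (n + 2 - j) := by
  classical
  set G := F.filter fun ℓ => j < (S ℓ).card with hG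
  have hGF : G ⊆ F := Finset.filter_subset _ _
  have h1 : ∑ ℓ ∈ F, ((S ℓ).card - j) = ∑ ℓ ∈ G, ((S ℓ).card - j) := by
    rw [hG, Finset.sum_filter]
    refine Finset.sum_congr rfl fun ℓ _ => ?_
    split_ifs with h
    · rfl
    · omega
  have h2 : ∑ ℓ ∈ G, ((S ℓ).card - j) + G.card * j = ∑ ℓ ∈ G, (S ℓ).card := by
    rw [← smul_eq_mul, ← Finset.sum_const, ← Finset.sum_add_distrib]
    refine Finset.sum_congr rfl fun ℓ hℓ => ?_
    have := (Finset.mem_filter.mp hℓ).2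
    omega
  have h3 : (G.biUnion S).card = ∑ ℓ ∈ G, (S ℓ).card := by
    refine Finset.card_biUnion fun ℓ hℓ ℓ' hℓ' hne => ?_
    rw [Function.onFun, Finset.disjoint_left]
    intro A hA hA'
    exact hne (hdis ℓ (hGF hℓ) ℓ' (hGF hℓ') A ((hS ℓ A).mp hA).1 ((hS ℓ A).mp hA).2
      ((hS ℓ' A).mp hA').2)
  have hsub : G.biUnion S ⊆ X := by
    intro A hA
    rw [Finset.mem_biUnion] at hA
    obtain ⟨ℓ, -, hA⟩ := hA
    exact ((hS ℓ A).mp hA).1
  have h4 : (G.biUnion S).card ≤ X.card := Finset.card_le_card hsub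
  suffices h : 2 * ∑ ℓ ∈ G, (S ℓ).card ≤ (n + 1 - j) * (n + 2 - j) + 2 * (G.card * j) by
    rw [h1]
    omega
  rw [← h3]
  rcases le_or_gt G.card (n + 1) with h5 | h5
  · have h6 := rest_ge D hproper G (hGF.trans hF) h5 (X \ G.biUnion S) (by
      intro x hx hxG
      rw [Finset.mem_sdiff]
      refine ⟨hx, fun hxU => ?_⟩
      rw [Finset.mem_biUnion] at hxU
      obtain ⟨ℓ, hℓ, hxℓ⟩ := hxU
      exact hxG ℓ hℓ ((hS ℓ x).mp hxℓ).2)
    rw [Finset.card_sdiff_of_subset hsub] at h6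
    refine arith1 (n + 1) j G.card _ hj h5 ?_
    have e : n + 1 + 1 - G.card = n + 2 - G.card := by omega
    rw [e]
    have : (n + 1) * (n + 1 + 1) = (n + 1) * (n + 2) := rfl
    rw [this, ← hcard]
    omega
  · refine arith2 (n + 1) j G.card _ hj h5 ?_
    have : (n + 1) * (n + 1 + 1) = (n + 1) * (n + 2) := rfl
    rw [this, ← hcard]
    omega

/-- the bound for a class -/
theorem class_le (D : Data n X 𝓛 t U) (hcard : 2 * X.card = (n + 1) * (n + 2))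
    (hproper : ∀ ℓ ∈ 𝓛, ∃ q : ℝ × ℝ, q ∉ ℓ)
    (S : Set (ℝ × ℝ) → Finset (ℝ × ℝ)) (hS : ∀ ℓ C, C ∈ S ℓ ↔ C ∈ X ∧ C ∈ ℓ)
    (hmax : ∀ ℓ ∈ 𝓛, (S ℓ).card ≤ n + 1)
    (F : Finset (Set (ℝ × ℝ))) (hF : F ⊆ 𝓛)
    (hdis : ∀ ℓ ∈ F, ∀ ℓ' ∈ F, ∀ A ∈ X, A ∈ ℓ → A ∈ ℓ' → ℓ = ℓ') :
    3 * ∑ ℓ ∈ F, (S ℓ).card * ((S ℓ).card - 1) ≤ n * (n + 1) * (n + 2) := by
  have h1 : ∑ ℓ ∈ F, (S ℓ).card * ((S ℓ).card - 1) =
      ∑ j ∈ Finset.range n, 2 * ∑ ℓ ∈ F, ((S ℓ).card - (j + 1)) := by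
    rw [← Finset.mul_sum, Finset.sum_comm, Finset.mul_sum]
    refine Finset.sum_congr rfl fun ℓ hℓ => ?_
    exact (two_sum_sub n _ (hmax ℓ (hF hℓ))).symm
  rw [h1, ← three_sum_tri n]
  refine Nat.mul_le_mul_left 3 (Finset.sum_le_sum fun j hj => ?_)
  rw [Finset.mem_range] at hj
  have h2 := thr_le D hcard hproper S hS F hF hdis (j + 1) (by omega)
  rw [show n + 1 - (j + 1) = n - j by omega, show n + 2 - (j + 1) = n + 1 - j by omega] at h2
  exact h2

/-- the equality case -/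
theorem class_eq (D : Data n X 𝓛 t U) (hcard : 2 * X.card = (n + 1) * (n + 2))
    (hproper : ∀ ℓ ∈ 𝓛, ∃ q : ℝ × ℝ, q ∉ ℓ)
    (S : Set (ℝ × ℝ) → Finset (ℝ × ℝ)) (hS : ∀ ℓ C, C ∈ S ℓ ↔ C ∈ X ∧ C ∈ ℓ)
    (hmax : ∀ ℓ ∈ 𝓛, (S ℓ).card ≤ n + 1)
    (F : Finset (Set (ℝ × ℝ))) (hF : F ⊆ 𝓛)
    (hdis : ∀ ℓ ∈ F, ∀ ℓ' ∈ F, ∀ A ∈ X, A ∈ ℓ → A ∈ ℓ' → ℓ = ℓ')
    (heq : 3 * ∑ ℓ ∈ F, (S ℓ).card * ((S ℓ).card - 1) = n * (n + 1) * (n + 2))
    (k : ℕ) (hk2 : 2 ≤ k) (hkn : k ≤ n + 1) : ∃! ℓ, ℓ ∈ F ∧ (S ℓ).card = k := by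
  classical
  have h1 : ∑ ℓ ∈ F, (S ℓ).card * ((S ℓ).card - 1) =
      ∑ j ∈ Finset.range n, 2 * ∑ ℓ ∈ F, ((S ℓ).card - (j + 1)) := by
    rw [← Finset.mul_sum, Finset.sum_comm, Finset.mul_sum]
    refine Finset.sum_congr rfl fun ℓ hℓ => ?_
    exact (two_sum_sub n _ (hmax ℓ (hF hℓ))).symm
  have hle : ∀ j ∈ Finset.range n, 2 * ∑ ℓ ∈ F, ((S ℓ).card - (j + 1)) ≤
      (n - j) * (n + 1 - j) := by
    intro j hj
    rw [Finset.mem_range] at hj
    have h2 := thr_le D hcard hproper S hS F hF hdis (j + 1) (by omega)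
    rw [show n + 1 - (j + 1) = n - j by omega, show n + 2 - (j + 1) = n + 1 - j by omega] at h2
    exact h2
  have hall : ∀ j ∈ Finset.range n, 2 * ∑ ℓ ∈ F, ((S ℓ).card - (j + 1)) =
      (n - j) * (n + 1 - j) := by
    refine (Finset.sum_eq_sum_iff_of_le hle).mp ?_
    have h3 := three_sum_tri n
    rw [h1] at heq
    omega
  -- the value of the threshold sum
  have hval : ∀ j, 1 ≤ j → j ≤ n + 1 → 2 * ∑ ℓ ∈ F, ((S ℓ).card - j) =
      (n + 1 - j) * (n + 2 - j) := by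
    intro j hj1 hj2
    rcases Nat.lt_or_ge j (n + 1) with h | h
    · have h2 := hall (j - 1) (Finset.mem_range.mpr (by omega))
      rw [show j - 1 + 1 = j by omega, show n - (j - 1) = n + 1 - j by omega,
        show n + 1 - (j - 1) = n + 2 - j by omega] at h2
      exact h2
    · have h2 : j = n + 1 := by omega
      have h3 := thr_le D hcard hproper S hS F hF hdis j hj2
      rw [h2] at h3 ⊢
      rw [show n + 1 - (n + 1) = 0 by omega, zero_mul] at h3 ⊢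
      omega
  -- number of lines with at least `j + 1` nodes
  have hcnt : ∀ j, 1 ≤ j → j ≤ n → (F.filter fun ℓ => j < (S ℓ).card).card = n + 1 - j := by
    intro j hj1 hj2
    have h2 := hval j hj1 (by omega)
    have h3 := hval (j + 1) (by omega) (by omega)
    have h4 : ∑ ℓ ∈ F, ((S ℓ).card - j) = ∑ ℓ ∈ F, ((S ℓ).card - (j + 1)) +
        (F.filter fun ℓ => j < (S ℓ).card).card := by
      rw [Finset.card_filter, ← Finset.sum_add_distrib]
      refine Finset.sum_congr rfl fun ℓ _ => ?_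
      split_ifs with h
      · omega
      · omega
    obtain ⟨b, rfl⟩ := Nat.exists_eq_add_of_le hj2
    rw [h4] at h2
    rw [show j + b + 1 - j = b + 1 by omega, show j + b + 2 - j = b + 2 by omega] at h2
    rw [show j + b + 1 - (j + 1) = b by omega, show j + b + 2 - (j + 1) = b + 1 by omega] at h3
    rw [show j + b + 1 - j = b + 1 by omega]
    nlinarith
  have hcnt' : (F.filter fun ℓ => k - 1 < (S ℓ).card).card =
      (F.filter fun ℓ => k < (S ℓ).card).card + 1 := by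
    rw [hcnt (k - 1) (by omega) (by omega)]
    rcases Nat.lt_or_ge k (n + 1) with h | h
    · rw [hcnt k (by omega) (by omega)]
      omega
    · have h2 : (F.filter fun ℓ => k < (S ℓ).card) = ∅ := by
        rw [Finset.filter_eq_empty_iff]
        intro ℓ hℓ
        have := hmax ℓ (hF hℓ)
        omega
      rw [h2, Finset.card_empty]
      omega
  have hdj : (F.filter fun ℓ => k - 1 < (S ℓ).card) =
      (F.filter fun ℓ => k < (S ℓ).card) ∪ (F.filter fun ℓ => (S ℓ).card = k) := by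
    ext ℓ
    simp only [Finset.mem_filter, Finset.mem_union]
    constructor
    · rintro ⟨h2, h3⟩
      by_cases h4 : (S ℓ).card = k
      · exact Or.inr ⟨h2, h4⟩
      · exact Or.inl ⟨h2, by omega⟩
    · rintro (⟨h2, h3⟩ | ⟨h2, h3⟩)
      · exact ⟨h2, by omega⟩
      · exact ⟨h2, by omega⟩
  have hdj2 : Disjoint (F.filter fun ℓ => k < (S ℓ).card) (F.filter fun ℓ => (S ℓ).card = k) := by
    rw [Finset.disjoint_left]
    intro ℓ h2 h3
    have := (Finset.mem_filter.mp h2).2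
    have := (Finset.mem_filter.mp h3).2
    omega
  rw [hdj, Finset.card_union_of_disjoint hdj2] at hcnt'
  obtain ⟨ℓ, hℓ⟩ := Finset.card_eq_one.mp (show (F.filter fun ℓ => (S ℓ).card = k).card = 1 by omega)
  refine ⟨ℓ, ?_, ?_⟩
  · have : ℓ ∈ F.filter fun ℓ => (S ℓ).card = k := by rw [hℓ]; exact Finset.mem_singleton_self _
    exact Finset.mem_filter.mp this
  · rintro ℓ' hℓ'
    have : ℓ' ∈ F.filter fun ℓ => (S ℓ).card = k := Finset.mem_filter.mpr hℓ'
    rw [hℓ] at this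
    exact Finset.mem_singleton.mp this

end Pool.Agent.Work.MP_d899bc_co.TC
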