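import Pool.Agent.Work.MP_d899bc_co.TC.Major

/-!
Fractional colourings of the used lines by node-disjoint classes.
-/

open Finset MvPolynomial

namespace Pool.Agent.Work.MP_d899bc_co.TC

open Pool.Agent.Work.MP_d899bc_co

variable {n : ℕ} {X : Finset (ℝ × ℝ)} {𝓛 : Finset (Set (ℝ × ℝ))}
  {t : Set (ℝ × ℝ) → ℝ × ℝ × ℝ} {U : ℝ × ℝ → Finset (Set (ℝ × ℝ))}

/-- the lines through a node -/
theorem node_ge (D : Data n X 𝓛 t U)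
    (hline : ∀ ℓ ∈ 𝓛, ∀ ℓ' ∈ 𝓛, ∀ A C : ℝ × ℝ, A ≠ C → A ∈ ℓ → C ∈ ℓ → A ∈ ℓ' → C ∈ ℓ' → ℓ = ℓ')
    (S : Set (ℝ × ℝ) → Finset (ℝ × ℝ)) (hS : ∀ ℓ C, C ∈ S ℓ ↔ C ∈ X ∧ C ∈ ℓ)
    (A : ℝ × ℝ) (hA : A ∈ X) :
    2 * n ≤ ∑ ℓ ∈ 𝓛, if A ∈ S ℓ then (S ℓ).card - 1 else 0 := by
  classical
  set L : Finset (ℝ × ℝ) := (𝓛.filter fun ℓ => A ∈ S ℓ).biUnion fun ℓ => (S ℓ).erase A with hL
  have h1 : 2 * n ≤ L.card := by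
    refine joined D hline A hA L fun C hC hCA hex => ?_
    obtain ⟨ℓ, hℓ, hAℓ, hCℓ⟩ := hex
    rw [hL, Finset.mem_biUnion]
    exact ⟨ℓ, Finset.mem_filter.mpr ⟨hℓ, (hS ℓ A).mpr ⟨hA, hAℓ⟩⟩,
      Finset.mem_erase.mpr ⟨hCA, (hS ℓ C).mpr ⟨hC, hCℓ⟩⟩⟩
  have h2 : L.card ≤ ∑ ℓ ∈ 𝓛.filter fun ℓ => A ∈ S ℓ, ((S ℓ).erase A).card :=
    Finset.card_biUnion_le
  refine h1.trans (h2.trans ?_)
  rw [Finset.sum_filter]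
  refine Finset.sum_le_sum fun ℓ _ => ?_
  split_ifs with h
  · rw [Finset.card_erase_of_mem h]
  · exact le_rfl

theorem double_count (S : Set (ℝ × ℝ) → Finset (ℝ × ℝ)) (hS : ∀ ℓ, S ℓ ⊆ X)
    (𝓛 : Finset (Set (ℝ × ℝ))) :
    ∑ A ∈ X, ∑ ℓ ∈ 𝓛, (if A ∈ S ℓ then (S ℓ).card - 1 else 0) =
      ∑ ℓ ∈ 𝓛, (S ℓ).card * ((S ℓ).card - 1) := by
  classical
  rw [Finset.sum_comm]
  refine Finset.sum_congr rfl fun ℓ _ => ?_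
  rw [← Finset.sum_filter, Finset.sum_const, smul_eq_mul]
  congr 2
  ext q
  rw [Finset.mem_filter]
  exact ⟨fun h => h.2, fun h => ⟨hS ℓ h, h⟩⟩

/-- the total -/
theorem total_ge (D : Data n X 𝓛 t U) (hcard : 2 * X.card = (n + 1) * (n + 2))
    (hline : ∀ ℓ ∈ 𝓛, ∀ ℓ' ∈ 𝓛, ∀ A C : ℝ × ℝ, A ≠ C → A ∈ ℓ → C ∈ ℓ → A ∈ ℓ' → C ∈ ℓ' → ℓ = ℓ')
    (S : Set (ℝ × ℝ) → Finset (ℝ × ℝ)) (hS : ∀ ℓ C, C ∈ S ℓ ↔ C ∈ X ∧ C ∈ ℓ) :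
    n * (n + 1) * (n + 2) ≤ ∑ ℓ ∈ 𝓛, (S ℓ).card * ((S ℓ).card - 1) := by
  classical
  rw [← double_count S (fun ℓ C hC => ((hS ℓ C).mp hC).1) 𝓛]
  have h1 : ∑ _A ∈ X, 2 * n ≤
      ∑ A ∈ X, ∑ ℓ ∈ 𝓛, (if A ∈ S ℓ then (S ℓ).card - 1 else 0) :=
    Finset.sum_le_sum fun A hA => node_ge D hline S hS A hA
  rw [Finset.sum_const, smul_eq_mul] at h1
  refine le_trans (le_of_eq ?_) h1
  calc n * (n + 1) * (n + 2) = (n + 1) * (n + 2) * n := by ring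
    _ = 2 * X.card * n := by rw [hcard]
    _ = X.card * (2 * n) := by ring

/-- fractional colourings -/
theorem fractional (D : Data n X 𝓛 t U) (hn : 1 ≤ n) (hcard : 2 * X.card = (n + 1) * (n + 2))
    (hline : ∀ ℓ ∈ 𝓛, ∀ ℓ' ∈ 𝓛, ∀ A C : ℝ × ℝ, A ≠ C → A ∈ ℓ → C ∈ ℓ → A ∈ ℓ' → C ∈ ℓ' → ℓ = ℓ')
    (hproper : ∀ ℓ ∈ 𝓛, ∃ q : ℝ × ℝ, q ∉ ℓ)
    (S : Set (ℝ × ℝ) → Finset (ℝ × ℝ)) (hS : ∀ ℓ C, C ∈ S ℓ ↔ C ∈ X ∧ C ∈ ℓ)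
    {r : ℕ} (I : Fin r → Finset (Set (ℝ × ℝ))) (w : Fin r → ℝ) (hI : ∀ s, I s ⊆ 𝓛)
    (hw : ∀ s, 0 < w s)
    (hdis : ∀ s, ∀ ℓ ∈ I s, ∀ ℓ' ∈ I s, ∀ A ∈ X, A ∈ ℓ → A ∈ ℓ' → ℓ = ℓ')
    (hcov : ∀ ℓ ∈ 𝓛, 1 ≤ ∑ s, if ℓ ∈ I s then w s else 0) :
    3 ≤ ∑ s, w s ∧ (∑ s, w s = 3 → ∀ s, ∀ k, 2 ≤ k → k ≤ n + 1 →
      ∃! ℓ, ℓ ∈ I s ∧ (S ℓ).card = k) := by
  classical
  have hmax : ∀ ℓ ∈ 𝓛, (S ℓ).card ≤ n + 1 := fun ℓ hℓ => line_le D hline S hS ℓ hℓ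
  set M : Fin r → ℕ := fun s => ∑ ℓ ∈ I s, (S ℓ).card * ((S ℓ).card - 1) with hM
  have hMle : ∀ s, 3 * M s ≤ n * (n + 1) * (n + 2) := fun s =>
    class_le D hcard hproper S hS hmax (I s) (hI s) (hdis s)
  set T : ℝ := (n : ℝ) * (n + 1) * (n + 2) with hT
  have hTpos : 0 < T := by
    have : (0 : ℝ) < n := by exact_mod_cast hn
    positivity
  have hMle' : ∀ s, 3 * (M s : ℝ) ≤ T := by
    intro s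
    have := hMle s
    rw [hT]
    exact_mod_cast this
  have h1 : T ≤ ∑ s, w s * (M s : ℝ) := by
    have h2 := total_ge D hcard hline S hS
    have h3 : T ≤ ∑ ℓ ∈ 𝓛, (((S ℓ).card * ((S ℓ).card - 1) : ℕ) : ℝ) := by
      rw [hT]
      exact_mod_cast h2
    refine h3.trans ?_
    have h4 : ∑ ℓ ∈ 𝓛, (((S ℓ).card * ((S ℓ).card - 1) : ℕ) : ℝ) ≤
        ∑ ℓ ∈ 𝓛, (∑ s, if ℓ ∈ I s then w s else 0) * (((S ℓ).card * ((S ℓ).card - 1) : ℕ) : ℝ) := by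
      refine Finset.sum_le_sum fun ℓ hℓ => ?_
      have h5 : (0 : ℝ) ≤ (((S ℓ).card * ((S ℓ).card - 1) : ℕ) : ℝ) := Nat.cast_nonneg _
      have h6 := hcov ℓ hℓ
      nlinarith
    refine h4.trans (le_of_eq ?_)
    simp_rw [Finset.sum_mul]
    rw [Finset.sum_comm]
    refine Finset.sum_congr rfl fun s _ => ?_
    rw [hM]
    simp only
    rw [Nat.cast_sum, Finset.mul_sum]
    rw [← Finset.sum_subset (hI s) (f := fun ℓ => (if ℓ ∈ I s then w s else 0) *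
      (((S ℓ).card * ((S ℓ).card - 1) : ℕ) : ℝ))]
    · refine Finset.sum_congr rfl fun ℓ hℓ => ?_
      rw [if_pos hℓ]
    · intro ℓ _ hℓ
      rw [if_neg hℓ, zero_mul]
  have h2 : ∑ s, w s * (3 * (M s : ℝ)) = 3 * ∑ s, w s * (M s : ℝ) := by
    rw [Finset.mul_sum]
    refine Finset.sum_congr rfl fun s _ => by ring
  have h3 : ∑ s, w s * (3 * (M s : ℝ)) ≤ ∑ s, w s * T :=
    Finset.sum_le_sum fun s _ => mul_le_mul_of_nonneg_left (hMle' s) (hw s).le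
  rw [← Finset.sum_mul] at h3
  constructor
  · by_contra hcon
    push Not at hcon
    nlinarith
  · intro hsum s k hk2 hkn
    have h4 : ∑ s, w s * (3 * (M s : ℝ)) = ∑ s, w s * T := by
      rw [← Finset.sum_mul]
      rw [hsum] at h3 ⊢
      linarith
    have h5 := (Finset.sum_eq_sum_iff_of_le (fun s _ =>
      mul_le_mul_of_nonneg_left (hMle' s) (hw s).le)).mp h4 s (Finset.mem_univ s)
    have h6 : 3 * (M s : ℝ) = T := mul_left_cancel₀ (hw s).ne' h5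
    have h7 : 3 * M s = n * (n + 1) * (n + 2) := by
      rw [hT] at h6
      exact_mod_cast h6
    exact class_eq D hcard hproper S hS hmax (I s) (hI s) (hdis s) h7 k hk2 hkn

/-- three classes: the classes are tight, and so is every node -/
theorem tight (D : Data n X 𝓛 t U) (hcard : 2 * X.card = (n + 1) * (n + 2))
    (hline : ∀ ℓ ∈ 𝓛, ∀ ℓ' ∈ 𝓛, ∀ A C : ℝ × ℝ, A ≠ C → A ∈ ℓ → C ∈ ℓ → A ∈ ℓ' → C ∈ ℓ' → ℓ = ℓ')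
    (hproper : ∀ ℓ ∈ 𝓛, ∃ q : ℝ × ℝ, q ∉ ℓ)
    (S : Set (ℝ × ℝ) → Finset (ℝ × ℝ)) (hS : ∀ ℓ C, C ∈ S ℓ ↔ C ∈ X ∧ C ∈ ℓ)
    (κ : Set (ℝ × ℝ) → Fin 3)
    (hκ : ∀ ℓ ∈ 𝓛, ∀ ℓ' ∈ 𝓛, κ ℓ = κ ℓ' → ∀ A ∈ X, A ∈ ℓ → A ∈ ℓ' → ℓ = ℓ') :
    (∀ c : Fin 3, ∀ k, 2 ≤ k → k ≤ n + 1 → ∃! ℓ, (ℓ ∈ 𝓛 ∧ κ ℓ = c) ∧ (S ℓ).card = k) ∧
    ∀ A ∈ X, ∑ c : Fin 3, ∑ ℓ ∈ 𝓛 with κ ℓ = c, (if A ∈ S ℓ then (S ℓ).card - 1 else 0) =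
      2 * n := by
  classical
  have hmax : ∀ ℓ ∈ 𝓛, (S ℓ).card ≤ n + 1 := fun ℓ hℓ => line_le D hline S hS ℓ hℓ
  have hdis : ∀ c, ∀ ℓ ∈ 𝓛.filter (fun ℓ => κ ℓ = c), ∀ ℓ' ∈ 𝓛.filter (fun ℓ => κ ℓ = c),
      ∀ A ∈ X, A ∈ ℓ → A ∈ ℓ' → ℓ = ℓ' := by
    intro c ℓ hℓ ℓ' hℓ' A hA h1 h2
    rw [Finset.mem_filter] at hℓ hℓ'
    exact hκ ℓ hℓ.1 ℓ' hℓ'.1 (hℓ.2.trans hℓ'.2.symm) A hA h1 h2
  have hMle : ∀ c, 3 * ∑ ℓ ∈ 𝓛 with κ ℓ = c, (S ℓ).card * ((S ℓ).card - 1) ≤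
      n * (n + 1) * (n + 2) := fun c =>
    class_le D hcard hproper S hS hmax _ (Finset.filter_subset _ _) (hdis c)
  have htot : ∑ c : Fin 3, ∑ ℓ ∈ 𝓛 with κ ℓ = c, (S ℓ).card * ((S ℓ).card - 1) =
      ∑ ℓ ∈ 𝓛, (S ℓ).card * ((S ℓ).card - 1) :=
    Finset.sum_fiberwise _ _ _
  have hge := total_ge D hcard hline S hS
  rw [Fin.sum_univ_three] at htot
  have m0 := hMle 0
  have m1 := hMle 1
  have m2 := hMle 2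
  have hMeq : ∀ c : Fin 3, 3 * ∑ ℓ ∈ 𝓛 with κ ℓ = c, (S ℓ).card * ((S ℓ).card - 1) =
      n * (n + 1) * (n + 2) := by
    intro c
    fin_cases c
    · show 3 * ∑ ℓ ∈ 𝓛 with κ ℓ = 0, (S ℓ).card * ((S ℓ).card - 1) = _
      omega
    · show 3 * ∑ ℓ ∈ 𝓛 with κ ℓ = 1, (S ℓ).card * ((S ℓ).card - 1) = _
      omega
    · show 3 * ∑ ℓ ∈ 𝓛 with κ ℓ = 2, (S ℓ).card * ((S ℓ).card - 1) = _
      omega
  refine ⟨fun c k hk2 hkn => ?_, fun A hA => ?_⟩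
  · have h := class_eq D hcard hproper S hS hmax _ (Finset.filter_subset (fun ℓ => κ ℓ = c) 𝓛)
      (hdis c) (hMeq c) k hk2 hkn
    simpa only [Finset.mem_filter] using h
  · rw [Finset.sum_fiberwise]
    have h1 : ∀ A ∈ X, 2 * n ≤ ∑ ℓ ∈ 𝓛, (if A ∈ S ℓ then (S ℓ).card - 1 else 0) :=
      fun A hA => node_ge D hline S hS A hA
    have h2 := double_count S (fun ℓ C hC => ((hS ℓ C).mp hC).1) 𝓛
    have h3 : ∑ _A ∈ X, 2 * n = n * (n + 1) * (n + 2) := by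
      rw [Finset.sum_const, smul_eq_mul]
      calc X.card * (2 * n) = 2 * X.card * n := by ring
        _ = (n + 1) * (n + 2) * n := by rw [hcard]
        _ = n * (n + 1) * (n + 2) := by ring
    have h4 : ∑ _A ∈ X, 2 * n =
        ∑ A ∈ X, ∑ ℓ ∈ 𝓛, (if A ∈ S ℓ then (S ℓ).card - 1 else 0) := by
      rw [h2, h3, ← htot]
      have e0 := hMeq 0
      have e1 := hMeq 1
      have e2 := hMeq 2
      omega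
    exact ((Finset.sum_eq_sum_iff_of_le h1).mp h4 A hA).symm

end Pool.Agent.Work.MP_d899bc_co.TC
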